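import Mathlib
import Pool.Agent.Y902.GN.Tc4

/-!
# Integer points of plane curves whose coordinates are generated by few integers

We consider all the plane curves `f = 0` of degree at most `d` in each variable, whose
coefficients are at most `X ^ E`, and which have only finitely many integer points, simultaneously.
We consider the integer points of these curves whose two coordinates are, up to sign, products of
powers of the same `N` (unspecified) integers of size at most `X`.  Up to multiplication of the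
coordinates by rational numbers of height at most `X ^ K`, there are at most `X ^ ε` such points
which satisfy `X ^ K < max |x| |y| ≤ exp (X ^ δ)`.  If the curve has infinitely many integer points,
the same is true for its points which do not lie on a torus translate contained in the curve.
-/

set_option autoImplicit false

namespace Pool.Agent.Results.MP_2d259b_nt.FewGeneratorPoints

open Pool.Agent.Y902.GN

/-- The value at `(x, y)` of the polynomial `∑ i j, c i j * x ^ i * y ^ j`. -/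
def value {d : ℕ} (c : Fin (d + 1) → Fin (d + 1) → ℤ) (x y : ℚ) : ℚ :=
  ∑ i, ∑ j, (c i j : ℚ) * x ^ (i : ℕ) * y ^ (j : ℕ)

/-- The integer points of the curve defined by the polynomial. -/
def Z {d : ℕ} (c : Fin (d + 1) → Fin (d + 1) → ℤ) : Set (ℤ × ℤ) := {p | value c p.1 p.2 = 0}

/-- The curve contains a one-dimensional torus translate through the point `(x, y)`. -/
def OnTorusTranslate {d : ℕ} (c : Fin (d + 1) → Fin (d + 1) → ℤ) (x y : ℤ) : Prop :=
  ∃ a b : ℤ, (a, b) ≠ (0, 0) ∧ ∀ s : ℚ, s ≠ 0 → value c (s ^ a * x) (s ^ b * y) = 0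

/-- `x` and `y` are, up to sign, products of powers of the same `N` integers between `1` and
`X`. -/
def Generated (N X : ℕ) (x y : ℤ) : Prop :=
  ∃ (η θ : ℤ) (b : Fin N → ℕ) (e f : Fin N → ℕ), |η| = 1 ∧ |θ| = 1 ∧
    (∀ j, 1 ≤ b j ∧ b j ≤ X) ∧ x = η * ∏ j, (b j : ℤ) ^ e j ∧ y = θ * ∏ j, (b j : ℤ) ^ f j

/-- The conditions on the curve and on its integer point `(x, y)`. -/
structure Point (d N E : ℕ) (δ : ℝ) (X : ℕ) (c : Fin (d + 1) → Fin (d + 1) → ℤ) (x y : ℤ) :
    Prop where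
  c_ne : c ≠ 0
  c_le : ∀ i j, |c i j| ≤ (X : ℤ) ^ E
  mem : (x, y) ∈ Z c
  fin : (Z c).Finite ∨ ¬ OnTorusTranslate c x y
  gen : Generated N X x y
  bound : ((max |x| |y| : ℤ) : ℝ) ≤ Real.exp ((X : ℝ) ^ δ)

/-- The ratio of `x` and `x'` is a nonzero rational number of height at most `B`. -/
def RatioLE (B : ℤ) (x x' : ℤ) : Prop :=
  ∃ u v : ℤ, u ≠ 0 ∧ v ≠ 0 ∧ |u| ≤ B ∧ |v| ≤ B ∧ v * x = u * x'

theorem Generated.ne {N X : ℕ} {x y : ℤ} (h : Generated N X x y) : x ≠ 0 ∧ y ≠ 0 := by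
  obtain ⟨η, θ, b, e, f, hη, hθ, hb, hx, hy⟩ := h
  have hb0 : ∀ j, (b j : ℤ) ≠ 0 := fun j => by
    have := (hb j).1
    exact_mod_cast (by omega : b j ≠ 0)
  constructor
  · rw [hx]
    refine mul_ne_zero ?_ (Finset.prod_ne_zero_iff.2 fun j _ => pow_ne_zero _ (hb0 j))
    rintro rfl
    rw [abs_zero] at hη
    exact zero_ne_one hη
  · rw [hy]
    refine mul_ne_zero ?_ (Finset.prod_ne_zero_iff.2 fun j _ => pow_ne_zero _ (hb0 j))
    rintro rfl
    rw [abs_zero] at hθ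
    exact zero_ne_one hθ

/-- finiteness forces opposite signs -/
theorem opposite {d : ℕ} {c : Fin (d + 1) → Fin (d + 1) → ℤ} (hf : (Z c).Finite) {x y : ℤ}
    (hx : x ≠ 0) (hy : y ≠ 0) {a b : ℤ} (hab : (a, b) ≠ (0, 0)) (ha : 0 ≤ a) (hb : 0 ≤ b)
    (h : ∀ s : ℚ, s ≠ 0 → value c (s ^ a * x) (s ^ b * y) = 0) : False := by
  obtain ⟨a, rfl⟩ := Int.eq_ofNat_of_zero_le ha
  obtain ⟨b, rfl⟩ := Int.eq_ofNat_of_zero_le hb
  have hmem : ∀ k : ℕ, (((k + 1 : ℕ) : ℤ) ^ a * x, ((k + 1 : ℕ) : ℤ) ^ b * y) ∈ Z c := by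
    intro k
    have := h ((k + 1 : ℕ) : ℚ) (by positivity)
    rw [zpow_natCast, zpow_natCast] at this
    show value c _ _ = 0
    push_cast at this ⊢
    exact this
  have hinj : Function.Injective fun k : ℕ =>
      ((((k + 1 : ℕ) : ℤ) ^ a * x, ((k + 1 : ℕ) : ℤ) ^ b * y) : ℤ × ℤ) := by
    intro k l hkl
    have h1 := congrArg Prod.fst hkl
    have h2 := congrArg Prod.snd hkl
    simp only at h1 h2
    have h3 := mul_right_cancel₀ hx h1
    have h4 := mul_right_cancel₀ hy h2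
    by_cases ha0 : a = 0
    · have hb0 : b ≠ 0 := by
        rintro rfl
        exact hab (by rw [ha0]; rfl)
      have h5 : (k + 1) ^ b = (l + 1) ^ b := by exact_mod_cast h4
      have := Nat.pow_left_injective hb0 h5
      omega
    · have h5 : (k + 1) ^ a = (l + 1) ^ a := by exact_mod_cast h3
      have := Nat.pow_left_injective ha0 h5
      omega
  exact (Set.infinite_of_injective_forall_mem hinj hmem) hf

/-- points on hyperbolic torus translates are small -/
theorem hyperbolic {d : ℕ} {c : Fin (d + 1) → Fin (d + 1) → ℤ} (hc : c ≠ 0) {x y : ℤ}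
    (hx : x ≠ 0) (hy : y ≠ 0) {a b : ℕ} (ha : 0 < a) (hb : 0 < b)
    (h : ∀ s : ℚ, s ≠ 0 → value c (s ^ (a : ℤ) * x) (s ^ (-(b : ℤ)) * y) = 0) {B : ℤ}
    (hB : ∀ i j, |c i j| ≤ B) : |x| ≤ B ∧ |y| ≤ B := by
  classical
  obtain ⟨e, he⟩ : ∃ e : Fin (d + 1) × Fin (d + 1) → ℕ, e = fun p => a * p.1 + b * (d - p.2) :=
    ⟨_, rfl⟩
  obtain ⟨t, ht⟩ : ∃ t : Fin (d + 1) × Fin (d + 1) → ℤ,
      t = fun p => c p.1 p.2 * x ^ (p.1 : ℕ) * y ^ (p.2 : ℕ) := ⟨_, rfl⟩
  obtain ⟨P, hP⟩ : ∃ P : Polynomial ℚ, P = ∑ p, Polynomial.monomial (e p) (t p : ℚ) := ⟨_, rfl⟩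
  have hP0 : P = 0 := by
    refine Polynomial.eq_zero_of_infinite_isRoot P
      (Set.Infinite.mono (s := {s : ℚ | s ≠ 0}) ?_ ?_)
    · intro s hs
      have hs : s ≠ 0 := hs
      rw [Set.mem_setOf_eq, Polynomial.IsRoot.def, hP, Polynomial.eval_finset_sum]
      have h1 := h s hs
      have h2 : ∑ p, Polynomial.eval s (Polynomial.monomial (e p) (t p : ℚ)) =
          s ^ (b * d) * value c (s ^ (a : ℤ) * x) (s ^ (-(b : ℤ)) * y) := by
        unfold value
        rw [Fintype.sum_prod_type, Finset.mul_sum]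
        refine Finset.sum_congr rfl fun i _ => ?_
        rw [Finset.mul_sum]
        refine Finset.sum_congr rfl fun j _ => ?_
        rw [Polynomial.eval_monomial, ht, he, mul_pow, mul_pow, zpow_natCast, zpow_neg,
          zpow_natCast]
        have hj : (j : ℕ) ≤ d := Nat.lt_succ_iff.1 j.2
        have h3 : s ^ (b * d) = s ^ (b * (d - (j : ℕ))) * (s ^ b) ^ (j : ℕ) := by
          rw [← pow_mul, ← pow_add, ← mul_add, Nat.sub_add_cancel hj]
        rw [h3]
        push_cast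
        rw [pow_add, pow_mul s a]
        have hsb : (s ^ b) ^ (j : ℕ) ≠ 0 := pow_ne_zero _ (pow_ne_zero _ hs)
        rw [inv_pow]
        field_simp
      rw [h2, h1, mul_zero]
    · have : {s : ℚ | s ≠ 0} = ({0} : Set ℚ)ᶜ := rfl
      rw [this]
      exact (Set.finite_singleton 0).infinite_compl
  have hcoef : ∀ w, ∑ p, (if e p = w then t p else 0) = 0 := by
    intro w
    have h1 : P.coeff w = 0 := by rw [hP0, Polynomial.coeff_zero]
    rw [hP, Polynomial.finset_sum_coeff] at h1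
    simp only [Polynomial.coeff_monomial] at h1
    exact_mod_cast h1
  obtain ⟨i0, j0, hij⟩ : ∃ i j, c i j ≠ 0 := by
    by_contra hcon
    push Not at hcon
    exact hc (funext fun i => funext fun j => hcon i j)
  obtain ⟨p1, hp1, hmin⟩ := Finset.exists_min_image
    ((Finset.univ : Finset (Fin (d + 1) × Fin (d + 1))).filter fun p =>
      e p = e (i0, j0) ∧ c p.1 p.2 ≠ 0) (fun p => (p.1 : ℕ)) ⟨(i0, j0), by simp [hij]⟩
  rw [Finset.mem_filter] at hp1
  obtain ⟨_, hp1e, hp1c⟩ := hp1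
  have hsum := hcoef (e (i0, j0))
  rw [← Finset.add_sum_erase _ _ (Finset.mem_univ p1), if_pos hp1e] at hsum
  have hdvd : x ^ ((p1.1 : ℕ) + 1) * y ^ ((p1.2 : ℕ) + 1) ∣ t p1 := by
    have h1 : t p1 = -∑ p ∈ Finset.univ.erase p1, (if e p = e (i0, j0) then t p else 0) := by
      linarith
    rw [h1, dvd_neg]
    refine Finset.dvd_sum fun p hp => ?_
    split_ifs with hpe
    · by_cases hpc : c p.1 p.2 = 0
      · rw [ht]
        simp [hpc]
      have h2 := hmin p (by rw [Finset.mem_filter]; exact ⟨Finset.mem_univ _, hpe, hpc⟩)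
      have h3 : e p = e p1 := by rw [hpe, hp1e]
      rw [he] at h3
      have hj : (p.2 : ℕ) ≤ d := Nat.lt_succ_iff.1 p.2.2
      have hj1 : (p1.2 : ℕ) ≤ d := Nat.lt_succ_iff.1 p1.2.2
      have h4 : (p1.1 : ℕ) < p.1 := by
        refine lt_of_le_of_ne h2 fun heq => ?_
        simp only [heq] at h3
        have h5 : b * (d - (p.2 : ℕ)) = b * (d - (p1.2 : ℕ)) := by omega
        have h6 := Nat.eq_of_mul_eq_mul_left hb h5
        apply (Finset.mem_erase.1 hp).1
        exact Prod.ext (Fin.ext heq.symm) (Fin.ext (by omega))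
      have h7 : (p1.2 : ℕ) < p.2 := by
        by_contra hcon
        push Not at hcon
        simp only at h3
        have h8 : a * (p1.1 : ℕ) < a * p.1 := Nat.mul_lt_mul_of_pos_left h4 ha
        have h9 : b * (d - (p1.2 : ℕ)) ≤ b * (d - (p.2 : ℕ)) :=
          Nat.mul_le_mul_left _ (by omega)
        omega
      rw [ht]
      simp only
      rw [mul_assoc]
      exact Dvd.dvd.mul_left (mul_dvd_mul (pow_dvd_pow _ h4) (pow_dvd_pow _ h7)) _
    · exact dvd_zero _
  have hdvd2 : x * y ∣ c p1.1 p1.2 := by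
    rw [ht] at hdvd
    simp only at hdvd
    have h1 : x ^ (p1.1 : ℕ) * y ^ (p1.2 : ℕ) ≠ 0 := mul_ne_zero (pow_ne_zero _ hx)
      (pow_ne_zero _ hy)
    refine (mul_dvd_mul_iff_left h1).1 ?_
    have h2 : x ^ (p1.1 : ℕ) * y ^ (p1.2 : ℕ) * (x * y) =
        x ^ ((p1.1 : ℕ) + 1) * y ^ ((p1.2 : ℕ) + 1) := by ring
    have h3 : x ^ (p1.1 : ℕ) * y ^ (p1.2 : ℕ) * c p1.1 p1.2 =
        c p1.1 p1.2 * x ^ (p1.1 : ℕ) * y ^ (p1.2 : ℕ) := by ring
    rw [h2, h3]
    exact hdvd
  have h1 : ∀ z : ℤ, z ∣ c p1.1 p1.2 → |z| ≤ B := fun z hz =>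
    (Int.le_of_dvd (abs_pos.2 hp1c) ((abs_dvd_abs _ _).2 hz)).trans (hB _ _)
  exact ⟨h1 x (dvd_trans (dvd_mul_right _ _) hdvd2), h1 y (dvd_trans (dvd_mul_left _ _) hdvd2)⟩

/-- the value in terms of the monomials -/
theorem value_eq {d : ℕ} (c : Fin (d + 1) → Fin (d + 1) → ℤ) (x y : ℚ) :
    value c x y = ∑ p : Fin (d + 1) × Fin (d + 1), (c p.1 p.2 : ℚ) *
      ∏ i, (![x, y] : Fin 2 → ℚ) i ^ (![(p.1 : ℕ), (p.2 : ℕ)] : Fin 2 → ℕ) i := by
  unfold value
  rw [Fintype.sum_prod_type]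
  refine Finset.sum_congr rfl fun i _ => Finset.sum_congr rfl fun j _ => ?_
  rw [Fin.prod_univ_two]
  simp [mul_assoc]

/-- the associated point of the general theorem -/
theorem Point.tcPt {d N E : ℕ} {δ : ℝ} {X : ℕ} {c : Fin (d + 1) → Fin (d + 1) → ℤ} {x y : ℤ}
    (h : Point d N E δ X c x y) (ht : ¬ OnTorusTranslate c x y) :
    TcPt (κ := Fin (d + 1) × Fin (d + 1)) (fun p => ![(p.1 : ℕ), (p.2 : ℕ)]) 1 N E δ X
      (fun _ p => c p.1 p.2) ![x, y] := by
  refine ⟨fun _ p => h.c_le _ _, fun _ => ?_, fun a ha => ?_, fun i => ?_, ?_⟩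
  · have h1 : value c x y = 0 := h.mem
    rw [value_eq] at h1
    have h2 : ∀ p : Fin (d + 1) × Fin (d + 1),
        ∏ i, (![(x : ℚ), (y : ℚ)] : Fin 2 → ℚ) i ^ (![(p.1 : ℕ), (p.2 : ℕ)] : Fin 2 → ℕ) i =
        ((∏ i, (![x, y] : Fin 2 → ℤ) i ^ (![(p.1 : ℕ), (p.2 : ℕ)] : Fin 2 → ℕ) i : ℤ) : ℚ) := by
      intro p
      rw [Fin.prod_univ_two, Fin.prod_univ_two]
      simp
    rw [Finset.sum_congr rfl fun p _ => by rw [h2 p]] at h1
    exact_mod_cast h1
  · by_contra hcon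
    push Not at hcon
    apply ht
    refine ⟨a 0, a 1, fun h0 => ha ?_, fun s hs => ?_⟩
    · have h1 := congrArg Prod.fst h0
      have h2 := congrArg Prod.snd h0
      funext i
      fin_cases i
      · exact h1
      · exact h2
    · have h1 := hcon s hs 0
      rw [value_eq]
      refine Eq.trans (Finset.sum_congr rfl fun p _ => ?_) h1
      rw [Fin.prod_univ_two, Fin.prod_univ_two]
      simp
  · refine le_trans ?_ h.bound
    fin_cases i
    · exact_mod_cast le_max_left _ _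
    · exact_mod_cast le_max_right _ _
  · obtain ⟨η, θ, b, e, f, hη, hθ, hb, hx, hy⟩ := h.gen
    refine ⟨![η, θ], b, ![e, f], fun i => ?_, hb, fun i => ?_⟩
    · fin_cases i
      · exact hη
      · exact hθ
    · fin_cases i
      · exact hx
      · exact hy

/-- **Few large integer points with generated coordinates.** -/
theorem result : ∀ (d N E : ℕ) (ε : ℝ), 0 < ε → ∃ (K : ℕ) (δ : ℝ), 0 < δ ∧ ∀ X : ℕ, 2 ≤ X →
    ∃ S : Finset (ℤ × ℤ), (S.card : ℝ) ≤ (X : ℝ) ^ ε ∧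
      (∀ s ∈ S, ∃ c, Point d N E δ X c s.1 s.2) ∧
      ∀ c x y, Point d N E δ X c x y → max |x| |y| ≤ (X : ℤ) ^ K ∨
        ∃ s ∈ S, RatioLE ((X : ℤ) ^ K) x s.1 ∧ RatioLE ((X : ℤ) ^ K) y s.2 := by
  classical
  intro d N E ε hε
  obtain ⟨C, δ, hδ, H⟩ := tc (κ := Fin (d + 1) × Fin (d + 1)) (fun p => ![(p.1 : ℕ), (p.2 : ℕ)])
    1 N E ε hε
  refine ⟨2 * C + E, δ, hδ, fun X hX => ?_⟩
  have hX1 : (1 : ℤ) ≤ (X : ℤ) := by exact_mod_cast (by omega : 1 ≤ X)
  obtain ⟨T, hT1, hT2, hT3⟩ := max_sep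
    {s : ℤ × ℤ | ∃ c, Point d N E δ X c s.1 s.2 ∧ ¬ OnTorusTranslate c s.1 s.2}
    (fun s t => s = t ∨ (s.1 ≠ 0 ∧ s.2 ≠ 0 ∧ t.1 ≠ 0 ∧ t.2 ≠ 0 ∧
      CloseC C X ![s.1, s.2] ![t.1, t.2])) (fun s => Or.inl rfl)
    (fun s t => by
      rintro (h | ⟨h1, h2, h3, h4, h⟩)
      · exact Or.inl h.symm
      · refine Or.inr ⟨h3, h4, h1, h2, fun i => ?_⟩
        have h5 := h i
        fin_cases i
        · have h6 : ((s.1 : ℚ) / t.1) ≠ 0 := div_ne_zero (by exact_mod_cast h1)
            (by exact_mod_cast h3)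
          have := h5.inv h6
          rwa [show (((![s.1, s.2] : Fin 2 → ℤ) ⟨0, by omega⟩ : ℤ) : ℚ) /
            (((![t.1, t.2] : Fin 2 → ℤ) ⟨0, by omega⟩ : ℤ) : ℚ) = (s.1 : ℚ) / t.1 from rfl,
            inv_div] at this
        · have h6 : ((s.2 : ℚ) / t.2) ≠ 0 := div_ne_zero (by exact_mod_cast h2)
            (by exact_mod_cast h4)
          have := h5.inv h6
          rwa [show (((![s.1, s.2] : Fin 2 → ℤ) ⟨1, by omega⟩ : ℤ) : ℚ) /
            (((![t.1, t.2] : Fin 2 → ℤ) ⟨1, by omega⟩ : ℤ) : ℚ) = (s.2 : ℚ) / t.2 from rfl,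
            inv_div] at this)
    ((X : ℝ) ^ ε)
    (fun T h1 h2 => by
      have hinj : Function.Injective fun s : ℤ × ℤ => (![s.1, s.2] : Fin 2 → ℤ) := by
        intro s t hst
        exact Prod.ext (congrFun hst 0) (congrFun hst 1)
      rw [← Finset.card_image_of_injective T hinj]
      refine H X hX _ ?_ ?_
      · intro v hv
        obtain ⟨s, hs, rfl⟩ := Finset.mem_image.1 hv
        obtain ⟨c, hc, hct⟩ := h1 s hs
        exact ⟨_, hc.tcPt hct⟩
      · intro v hv v' hv' hne hcl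
        obtain ⟨s, hs, rfl⟩ := Finset.mem_image.1 hv
        obtain ⟨t, ht, rfl⟩ := Finset.mem_image.1 hv'
        have hst : s ≠ t := by
          rintro rfl
          exact hne rfl
        obtain ⟨c, hc, _⟩ := h1 s hs
        obtain ⟨c', hc', _⟩ := h1 t ht
        exact h2 s hs t ht hst (Or.inr ⟨hc.gen.ne.1, hc.gen.ne.2, hc'.gen.ne.1, hc'.gen.ne.2, hcl⟩))
  have hCK : (((X + 2) ^ C : ℕ) : ℤ) ≤ (X : ℤ) ^ (2 * C + E) := by
    have h1 : (X : ℤ) + 2 ≤ (X : ℤ) ^ 2 := by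
      have : (2 : ℤ) ≤ (X : ℤ) := by exact_mod_cast hX
      nlinarith
    push_cast
    calc ((X : ℤ) + 2) ^ C ≤ ((X : ℤ) ^ 2) ^ C := pow_le_pow_left₀ (by positivity) h1 _
      _ = (X : ℤ) ^ (2 * C) := by rw [← pow_mul]
      _ ≤ _ := pow_le_pow_right₀ hX1 (by omega)
  have hratio : ∀ z z' : ℤ, z ≠ 0 → z' ≠ 0 → HtLe ((X + 2) ^ C) ((z : ℚ) / z') →
      RatioLE ((X : ℤ) ^ (2 * C + E)) z z' := by
    intro z z' hz hz' hzz
    refine ⟨((z : ℚ) / z').num, (((z : ℚ) / z').den : ℤ), ?_, ?_, hzz.1.trans hCK,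
      hzz.den_abs.trans hCK, ?_⟩
    · exact Rat.num_ne_zero.2 (div_ne_zero (by exact_mod_cast hz) (by exact_mod_cast hz'))
    · exact_mod_cast ((z : ℚ) / z').den_nz
    · have hzq' : (z' : ℚ) ≠ 0 := by exact_mod_cast hz'
      have h1 := Rat.mul_den_eq_num ((z : ℚ) / z')
      have h2 : ((((z : ℚ) / z').den : ℤ) : ℚ) * z = (((z : ℚ) / z').num : ℚ) * z' := by
        rw [← h1]
        push_cast
        field_simp
      exact_mod_cast h2
  refine ⟨T, hT2, fun s hs => ?_, fun c x y h => ?_⟩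
  · obtain ⟨c, hc, _⟩ := hT1 s hs
    exact ⟨c, hc⟩
  · have hx := h.gen.ne.1
    have hy := h.gen.ne.2
    by_cases ht : OnTorusTranslate c x y
    · left
      have hf : (Z c).Finite := h.fin.resolve_right (not_not.2 ht)
      obtain ⟨a, b, hab, hs⟩ := ht
      have hEK : (X : ℤ) ^ E ≤ (X : ℤ) ^ (2 * C + E) := pow_le_pow_right₀ hX1 (by omega)
      have hs' : ∀ s : ℚ, s ≠ 0 → value c (s ^ (-a) * x) (s ^ (-b) * y) = 0 := by
        intro s hs0
        have := hs s⁻¹ (inv_ne_zero hs0)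
        rwa [inv_zpow', inv_zpow'] at this
      have hab' : (-a, -b) ≠ (0, 0) := by
        intro h0
        apply hab
        have h1 := congrArg Prod.fst h0
        have h2 := congrArg Prod.snd h0
        simp only at h1 h2
        exact Prod.ext (by simpa using h1) (by simpa using h2)
      rcases lt_or_ge a 0 with ha | ha
      · rcases lt_or_ge 0 b with hb | hb
        · obtain ⟨a', ha'⟩ := Int.eq_ofNat_of_zero_le (show 0 ≤ -a by omega)
          obtain ⟨b', hb'⟩ := Int.eq_ofNat_of_zero_le (show 0 ≤ b by omega)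
          rw [ha', hb'] at hs'
          have := hyperbolic h.c_ne hx hy (by omega) (by omega) hs' h.c_le
          exact max_le (this.1.trans hEK) (this.2.trans hEK)
        · exact (opposite hf hx hy hab' (by omega) (by omega) hs').elim
      · rcases lt_or_ge b 0 with hb | hb
        · rcases eq_or_lt_of_le ha with ha0 | ha0
          · exact (opposite hf hx hy hab' (by omega) (by omega) hs').elim
          · obtain ⟨a', ha'⟩ := Int.eq_ofNat_of_zero_le ha
            obtain ⟨b', hb'⟩ := Int.eq_ofNat_of_zero_le (show 0 ≤ -b by omega)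
            have hb2 : b = -(b' : ℤ) := by omega
            rw [ha', hb2] at hs
            have := hyperbolic h.c_ne hx hy (by omega) (by omega) hs h.c_le
            exact max_le (this.1.trans hEK) (this.2.trans hEK)
        · exact (opposite hf hx hy hab ha hb hs).elim
    · right
      obtain ⟨s, hs, hst⟩ := hT3 (x, y) ⟨c, h, ht⟩
      refine ⟨s, hs, ?_⟩
      rcases hst with rfl | ⟨_, _, h3, h4, h5⟩
      · have h1 : (1 : ℤ) ≤ (X : ℤ) ^ (2 * C + E) := one_le_pow₀ hX1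
        exact ⟨⟨1, 1, one_ne_zero, one_ne_zero, by rwa [abs_one], by rwa [abs_one], rfl⟩,
          ⟨1, 1, one_ne_zero, one_ne_zero, by rwa [abs_one], by rwa [abs_one], rfl⟩⟩
      · exact ⟨hratio _ _ hx h3 (h5 0), hratio _ _ hy h4 (h5 1)⟩

end Pool.Agent.Results.MP_2d259b_nt.FewGeneratorPoints
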