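import Mathlib
import Pool.Agent.Y902.GN.Ir3

/-!
# Integer points of irreducible plane curves whose coordinates are generated by few integers

We consider all the plane curves `f = 0`, where `f` is an irreducible polynomial of `ℤ[x, y]` of
degree at most `d` in each variable whose coefficients are at most `X ^ E`, and which have only
finitely many integer points, simultaneously.  We consider the integer points of these curves whose
two coordinates are, up to sign, products of powers of the same `N` (unspecified) integers of size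
at most `X`, and which satisfy `X ^ K < max |x| |y| ≤ exp (X ^ δ)`.  Up to a change of variables
`(x, y) ↦ (ρ x, σ y)` with rational `ρ` and `σ` of height at most `X ^ K`, which acts on the curve
and on the point, there are at most `X ^ ε` such pairs (curve, point).  If the curve has infinitely many integer points, the
same is true for its points which do not lie on a torus translate contained in the curve.
-/

set_option autoImplicit false

namespace Pool.Agent.Results.MP_2d259b_nt.IrreducibleCurves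

open Pool.Agent.Y902.GN

/-- The value at `(x, y)` of the polynomial `∑ i j, c i j * x ^ i * y ^ j`. -/
def value {d : ℕ} (c : Fin (d + 1) → Fin (d + 1) → ℤ) (x y : ℚ) : ℚ :=
  ∑ i, ∑ j, (c i j : ℚ) * x ^ (i : ℕ) * y ^ (j : ℕ)

/-- The polynomial `∑ i j, c i j * x ^ i * y ^ j`, as a polynomial in `y` whose coefficients are
polynomials in `x`. -/
noncomputable def poly {d : ℕ} (c : Fin (d + 1) → Fin (d + 1) → ℤ) :
    Polynomial (Polynomial ℤ) :=
  ∑ j : Fin (d + 1), Polynomial.monomial (j : ℕ)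
    (∑ i : Fin (d + 1), Polynomial.monomial (i : ℕ) (c i j))

/-- The integer points of the curve defined by the polynomial. -/
def Z {d : ℕ} (c : Fin (d + 1) → Fin (d + 1) → ℤ) : Set (ℤ × ℤ) := {p | value c p.1 p.2 = 0}

/-- The curve contains a one-dimensional torus translate through the point `(x, y)`. -/
def OnTorusTranslate {d : ℕ} (c : Fin (d + 1) → Fin (d + 1) → ℤ) (x y : ℤ) : Prop :=
  ∃ a b : ℤ, (a, b) ≠ (0, 0) ∧ ∀ s : ℚ, s ≠ 0 → value c (s ^ a * x) (s ^ b * y) = 0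

/-- `x` and `y` are, up to sign, products of powers of the same `N` integers between `1` and
`X`. -/
def Generated (N X : ℕ) (x y : ℤ) : Prop :=
  ∃ (η θ : ℤ) (b : Fin N → ℕ) (e f : Fin N → ℕ), |η| = 1 ∧ |θ| = 1 ∧
    (∀ j, 1 ≤ b j ∧ b j ≤ X) ∧ x = η * ∏ j, (b j : ℤ) ^ e j ∧ y = θ * ∏ j, (b j : ℤ) ^ f j

/-- The conditions on the curve and on its integer point `(x, y)`. -/
structure Point (d N E : ℕ) (δ : ℝ) (X : ℕ) (c : Fin (d + 1) → Fin (d + 1) → ℤ) (x y : ℤ) :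
    Prop where
  irreducible : Irreducible (poly c)
  c_le : ∀ i j, |c i j| ≤ (X : ℤ) ^ E
  mem : (x, y) ∈ Z c
  fin : (Z c).Finite ∨ ¬ OnTorusTranslate c x y
  gen : Generated N X x y
  bound : ((max |x| |y| : ℤ) : ℝ) ≤ Real.exp ((X : ℝ) ^ δ)

/-- The curve and the point `(c, x, y)` arise from `(c', x', y')` by rescaling the two coordinates
by rational numbers `ρ` and `σ` of height at most `B`: we have `(x, y) = (ρ x', σ y')` and
`f (ρ X, σ Y) = κ f' (X, Y)` for the polynomials. -/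
def Rescaled {d : ℕ} (B : ℤ) (c c' : Fin (d + 1) → Fin (d + 1) → ℤ) (x y x' y' : ℤ) : Prop :=
  ∃ ρ σ κ : ℚ, ρ ≠ 0 ∧ σ ≠ 0 ∧ κ ≠ 0 ∧ max |ρ.num| ρ.den ≤ B ∧ max |σ.num| σ.den ≤ B ∧
    (x : ℚ) = ρ * x' ∧ (y : ℚ) = σ * y' ∧
    ∀ i j, (c i j : ℚ) * ρ ^ (i : ℕ) * σ ^ (j : ℕ) = κ * c' i j

theorem Generated.ne {N X : ℕ} {x y : ℤ} (h : Generated N X x y) : x ≠ 0 ∧ y ≠ 0 := by
  obtain ⟨η, θ, b, e, f, hη, hθ, hb, hx, hy⟩ := h
  have hb0 : ∀ j, (b j : ℤ) ≠ 0 := fun j => by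
    have := (hb j).1
    exact_mod_cast (by omega : b j ≠ 0)
  constructor
  · rw [hx]
    refine mul_ne_zero ?_ (Finset.prod_ne_zero_iff.2 fun j _ => pow_ne_zero _ (hb0 j))
    rintro rfl
    rw [abs_zero] at hη
    exact zero_ne_one hη
  · rw [hy]
    refine mul_ne_zero ?_ (Finset.prod_ne_zero_iff.2 fun j _ => pow_ne_zero _ (hb0 j))
    rintro rfl
    rw [abs_zero] at hθ
    exact zero_ne_one hθ

/-- finiteness forces opposite signs -/
theorem opposite {d : ℕ} {c : Fin (d + 1) → Fin (d + 1) → ℤ} (hf : (Z c).Finite) {x y : ℤ}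
    (hx : x ≠ 0) (hy : y ≠ 0) {a b : ℤ} (hab : (a, b) ≠ (0, 0)) (ha : 0 ≤ a) (hb : 0 ≤ b)
    (h : ∀ s : ℚ, s ≠ 0 → value c (s ^ a * x) (s ^ b * y) = 0) : False := by
  obtain ⟨a, rfl⟩ := Int.eq_ofNat_of_zero_le ha
  obtain ⟨b, rfl⟩ := Int.eq_ofNat_of_zero_le hb
  have hmem : ∀ k : ℕ, (((k + 1 : ℕ) : ℤ) ^ a * x, ((k + 1 : ℕ) : ℤ) ^ b * y) ∈ Z c := by
    intro k
    have := h ((k + 1 : ℕ) : ℚ) (by positivity)
    rw [zpow_natCast, zpow_natCast] at this
    show value c _ _ = 0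
    push_cast at this ⊢
    exact this
  have hinj : Function.Injective fun k : ℕ =>
      ((((k + 1 : ℕ) : ℤ) ^ a * x, ((k + 1 : ℕ) : ℤ) ^ b * y) : ℤ × ℤ) := by
    intro k l hkl
    have h1 := congrArg Prod.fst hkl
    have h2 := congrArg Prod.snd hkl
    simp only at h1 h2
    have h3 := mul_right_cancel₀ hx h1
    have h4 := mul_right_cancel₀ hy h2
    by_cases ha0 : a = 0
    · have hb0 : b ≠ 0 := by
        rintro rfl
        exact hab (by rw [ha0]; rfl)
      have h5 : (k + 1) ^ b = (l + 1) ^ b := by exact_mod_cast h4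
      have := Nat.pow_left_injective hb0 h5
      omega
    · have h5 : (k + 1) ^ a = (l + 1) ^ a := by exact_mod_cast h3
      have := Nat.pow_left_injective ha0 h5
      omega
  exact (Set.infinite_of_injective_forall_mem hinj hmem) hf

/-- points on hyperbolic torus translates are small -/
theorem hyperbolic {d : ℕ} {c : Fin (d + 1) → Fin (d + 1) → ℤ} (hc : c ≠ 0) {x y : ℤ}
    (hx : x ≠ 0) (hy : y ≠ 0) {a b : ℕ} (ha : 0 < a) (hb : 0 < b)
    (h : ∀ s : ℚ, s ≠ 0 → value c (s ^ (a : ℤ) * x) (s ^ (-(b : ℤ)) * y) = 0) {B : ℤ}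
    (hB : ∀ i j, |c i j| ≤ B) : |x| ≤ B ∧ |y| ≤ B := by
  classical
  obtain ⟨e, he⟩ : ∃ e : Fin (d + 1) × Fin (d + 1) → ℕ, e = fun p => a * p.1 + b * (d - p.2) :=
    ⟨_, rfl⟩
  obtain ⟨t, ht⟩ : ∃ t : Fin (d + 1) × Fin (d + 1) → ℤ,
      t = fun p => c p.1 p.2 * x ^ (p.1 : ℕ) * y ^ (p.2 : ℕ) := ⟨_, rfl⟩
  obtain ⟨P, hP⟩ : ∃ P : Polynomial ℚ, P = ∑ p, Polynomial.monomial (e p) (t p : ℚ) := ⟨_, rfl⟩
  have hP0 : P = 0 := by
    refine Polynomial.eq_zero_of_infinite_isRoot P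
      (Set.Infinite.mono (s := {s : ℚ | s ≠ 0}) ?_ ?_)
    · intro s hs
      have hs : s ≠ 0 := hs
      rw [Set.mem_setOf_eq, Polynomial.IsRoot.def, hP, Polynomial.eval_finset_sum]
      have h1 := h s hs
      have h2 : ∑ p, Polynomial.eval s (Polynomial.monomial (e p) (t p : ℚ)) =
          s ^ (b * d) * value c (s ^ (a : ℤ) * x) (s ^ (-(b : ℤ)) * y) := by
        unfold value
        rw [Fintype.sum_prod_type, Finset.mul_sum]
        refine Finset.sum_congr rfl fun i _ => ?_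
        rw [Finset.mul_sum]
        refine Finset.sum_congr rfl fun j _ => ?_
        rw [Polynomial.eval_monomial, ht, he, mul_pow, mul_pow, zpow_natCast, zpow_neg,
          zpow_natCast]
        have hj : (j : ℕ) ≤ d := Nat.lt_succ_iff.1 j.2
        have h3 : s ^ (b * d) = s ^ (b * (d - (j : ℕ))) * (s ^ b) ^ (j : ℕ) := by
          rw [← pow_mul, ← pow_add, ← mul_add, Nat.sub_add_cancel hj]
        rw [h3]
        push_cast
        rw [pow_add, pow_mul s a]
        have hsb : (s ^ b) ^ (j : ℕ) ≠ 0 := pow_ne_zero _ (pow_ne_zero _ hs)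
        rw [inv_pow]
        field_simp
      rw [h2, h1, mul_zero]
    · have : {s : ℚ | s ≠ 0} = ({0} : Set ℚ)ᶜ := rfl
      rw [this]
      exact (Set.finite_singleton 0).infinite_compl
  have hcoef : ∀ w, ∑ p, (if e p = w then t p else 0) = 0 := by
    intro w
    have h1 : P.coeff w = 0 := by rw [hP0, Polynomial.coeff_zero]
    rw [hP, Polynomial.finset_sum_coeff] at h1
    simp only [Polynomial.coeff_monomial] at h1
    exact_mod_cast h1
  obtain ⟨i0, j0, hij⟩ : ∃ i j, c i j ≠ 0 := by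
    by_contra hcon
    push Not at hcon
    exact hc (funext fun i => funext fun j => hcon i j)
  obtain ⟨p1, hp1, hmin⟩ := Finset.exists_min_image
    ((Finset.univ : Finset (Fin (d + 1) × Fin (d + 1))).filter fun p =>
      e p = e (i0, j0) ∧ c p.1 p.2 ≠ 0) (fun p => (p.1 : ℕ)) ⟨(i0, j0), by simp [hij]⟩
  rw [Finset.mem_filter] at hp1
  obtain ⟨_, hp1e, hp1c⟩ := hp1
  have hsum := hcoef (e (i0, j0))
  rw [← Finset.add_sum_erase _ _ (Finset.mem_univ p1), if_pos hp1e] at hsum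
  have hdvd : x ^ ((p1.1 : ℕ) + 1) * y ^ ((p1.2 : ℕ) + 1) ∣ t p1 := by
    have h1 : t p1 = -∑ p ∈ Finset.univ.erase p1, (if e p = e (i0, j0) then t p else 0) := by
      linarith
    rw [h1, dvd_neg]
    refine Finset.dvd_sum fun p hp => ?_
    split_ifs with hpe
    · by_cases hpc : c p.1 p.2 = 0
      · rw [ht]
        simp [hpc]
      have h2 := hmin p (by rw [Finset.mem_filter]; exact ⟨Finset.mem_univ _, hpe, hpc⟩)
      have h3 : e p = e p1 := by rw [hpe, hp1e]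
      rw [he] at h3
      have hj : (p.2 : ℕ) ≤ d := Nat.lt_succ_iff.1 p.2.2
      have hj1 : (p1.2 : ℕ) ≤ d := Nat.lt_succ_iff.1 p1.2.2
      have h4 : (p1.1 : ℕ) < p.1 := by
        refine lt_of_le_of_ne h2 fun heq => ?_
        simp only [heq] at h3
        have h5 : b * (d - (p.2 : ℕ)) = b * (d - (p1.2 : ℕ)) := by omega
        have h6 := Nat.eq_of_mul_eq_mul_left hb h5
        apply (Finset.mem_erase.1 hp).1
        exact Prod.ext (Fin.ext heq.symm) (Fin.ext (by omega))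
      have h7 : (p1.2 : ℕ) < p.2 := by
        by_contra hcon
        push Not at hcon
        simp only at h3
        have h8 : a * (p1.1 : ℕ) < a * p.1 := Nat.mul_lt_mul_of_pos_left h4 ha
        have h9 : b * (d - (p1.2 : ℕ)) ≤ b * (d - (p.2 : ℕ)) :=
          Nat.mul_le_mul_left _ (by omega)
        omega
      rw [ht]
      simp only
      rw [mul_assoc]
      exact Dvd.dvd.mul_left (mul_dvd_mul (pow_dvd_pow _ h4) (pow_dvd_pow _ h7)) _
    · exact dvd_zero _
  have hdvd2 : x * y ∣ c p1.1 p1.2 := by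
    rw [ht] at hdvd
    simp only at hdvd
    have h1 : x ^ (p1.1 : ℕ) * y ^ (p1.2 : ℕ) ≠ 0 := mul_ne_zero (pow_ne_zero _ hx)
      (pow_ne_zero _ hy)
    refine (mul_dvd_mul_iff_left h1).1 ?_
    have h2 : x ^ (p1.1 : ℕ) * y ^ (p1.2 : ℕ) * (x * y) =
        x ^ ((p1.1 : ℕ) + 1) * y ^ ((p1.2 : ℕ) + 1) := by ring
    have h3 : x ^ (p1.1 : ℕ) * y ^ (p1.2 : ℕ) * c p1.1 p1.2 =
        c p1.1 p1.2 * x ^ (p1.1 : ℕ) * y ^ (p1.2 : ℕ) := by ring
    rw [h2, h3]
    exact hdvd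
  have h1 : ∀ z : ℤ, z ∣ c p1.1 p1.2 → |z| ≤ B := fun z hz =>
    (Int.le_of_dvd (abs_pos.2 hp1c) ((abs_dvd_abs _ _).2 hz)).trans (hB _ _)
  exact ⟨h1 x (dvd_trans (dvd_mul_right _ _) hdvd2), h1 y (dvd_trans (dvd_mul_left _ _) hdvd2)⟩

/-- the value in terms of the monomials -/
theorem value_eq {d : ℕ} (c : Fin (d + 1) → Fin (d + 1) → ℤ) (x y : ℚ) :
    value c x y = ∑ p : Fin (d + 1) × Fin (d + 1), (c p.1 p.2 : ℚ) *
      ∏ i, (![x, y] : Fin 2 → ℚ) i ^ (![(p.1 : ℕ), (p.2 : ℕ)] : Fin 2 → ℕ) i := by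
  unfold value
  rw [Fintype.sum_prod_type]
  refine Finset.sum_congr rfl fun i _ => Finset.sum_congr rfl fun j _ => ?_
  rw [Fin.prod_univ_two]
  simp [mul_assoc]

/-- the points are not on torus translates -/
theorem Point.not_torus {d N E : ℕ} {δ : ℝ} {X : ℕ} {c : Fin (d + 1) → Fin (d + 1) → ℤ} {x y : ℤ}
    (h : Point d N E δ X c x y) (hx : (X : ℤ) ^ E < |x|) : ¬ OnTorusTranslate c x y := by
  intro ht
  have hc0 : c ≠ 0 := by
    rintro rfl
    obtain ⟨i, j, hij⟩ := poly2_ne (c := (0 : Fin (d + 1) → Fin (d + 1) → ℤ)) h.irreducible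
    exact hij rfl
  have hf : (Z c).Finite := h.fin.resolve_right (not_not.2 ht)
  have hx0 := h.gen.ne.1
  have hy0 := h.gen.ne.2
  obtain ⟨a, b, hab, hs⟩ := ht
  have hs' : ∀ s : ℚ, s ≠ 0 → value c (s ^ (-a) * x) (s ^ (-b) * y) = 0 := by
    intro s hs0
    have := hs s⁻¹ (inv_ne_zero hs0)
    rwa [inv_zpow', inv_zpow'] at this
  have hab' : (-a, -b) ≠ (0, 0) := by
    intro h0
    apply hab
    have h1 := congrArg Prod.fst h0
    have h2 := congrArg Prod.snd h0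
    simp only at h1 h2
    exact Prod.ext (by simpa using h1) (by simpa using h2)
  rcases lt_or_ge a 0 with ha | ha
  · rcases lt_or_ge 0 b with hb | hb
    · obtain ⟨a', ha'⟩ := Int.eq_ofNat_of_zero_le (show 0 ≤ -a by omega)
      obtain ⟨b', hb'⟩ := Int.eq_ofNat_of_zero_le (show 0 ≤ b by omega)
      rw [ha', hb'] at hs'
      have := hyperbolic hc0 hx0 hy0 (by omega) (by omega) hs' h.c_le
      linarith [this.1]
    · exact (opposite hf hx0 hy0 hab' (by omega) (by omega) hs').elim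
  · rcases lt_or_ge b 0 with hb | hb
    · rcases eq_or_lt_of_le ha with ha0 | ha0
      · exact (opposite hf hx0 hy0 hab' (by omega) (by omega) hs').elim
      · obtain ⟨a', ha'⟩ := Int.eq_ofNat_of_zero_le ha
        obtain ⟨b', hb'⟩ := Int.eq_ofNat_of_zero_le (show 0 ≤ -b by omega)
        have hb2 : b = -(b' : ℤ) := by omega
        rw [ha', hb2] at hs
        have := hyperbolic hc0 hx0 hy0 (by omega) (by omega) hs h.c_le
        linarith [this.1]
    · exact (opposite hf hx0 hy0 hab ha hb hs).elim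

theorem Point.eqn {d N E : ℕ} {δ : ℝ} {X : ℕ} {c : Fin (d + 1) → Fin (d + 1) → ℤ} {x y : ℤ}
    (h : Point d N E δ X c x y) : ∑ i, ∑ j, c i j * x ^ (i : ℕ) * y ^ (j : ℕ) = 0 := by
  have h1 : value c x y = 0 := h.mem
  unfold value at h1
  exact_mod_cast h1

/-- the polynomial involves `y` -/
theorem Point.involves {d N E : ℕ} {δ : ℝ} {X : ℕ} {c : Fin (d + 1) → Fin (d + 1) → ℤ} {x y : ℤ}
    (h : Point d N E δ X c x y) : 0 < (poly2 c).natDegree := by
  by_contra hcon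
  push Not at hcon
  have h0 : ∀ i j : Fin (d + 1), (j : ℕ) ≠ 0 → c i j = 0 := by
    intro i j hj
    have h1 : (poly2 c).coeff (j : ℕ) = 0 := Polynomial.coeff_eq_zero_of_natDegree_lt (by omega)
    rw [← poly2_coeff c i j, h1, Polynomial.coeff_zero]
  have h1 : ∀ t : ℚ, value c x t = 0 := by
    intro t
    have h2 : value c x y = 0 := h.mem
    rw [← h2]
    unfold value
    refine Finset.sum_congr rfl fun i _ => Finset.sum_congr rfl fun j _ => ?_
    by_cases hj : (j : ℕ) = 0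
    · rw [hj, pow_zero, pow_zero]
    · rw [h0 i j hj]
      simp
  rcases h.fin with hf | ht
  · refine (Set.infinite_of_injective_forall_mem (f := fun k : ℕ => ((x, (k : ℤ)) : ℤ × ℤ)) ?_ ?_) hf
    · intro k l hkl
      have := congrArg Prod.snd hkl
      simpa using this
    · intro k
      exact h1 _
  · apply ht
    refine ⟨0, 1, by simp, fun s _ => ?_⟩
    rw [zpow_zero, one_mul]
    exact h1 _

/-- the associated point of the general theorem -/
theorem Point.irPt {d N E K : ℕ} {δ : ℝ} {X : ℕ} {c : Fin (d + 1) → Fin (d + 1) → ℤ} {x y : ℤ}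
    (h : Point d N E δ X c x y) (hX : 1 ≤ X) (hx : (X : ℤ) ^ (K + E) < |x|) :
    IrPt d N E K δ X c x y := by
  have hX1 : (1 : ℤ) ≤ (X : ℤ) := by exact_mod_cast hX
  have hxE : (X : ℤ) ^ E < |x| := lt_of_le_of_lt (pow_le_pow_right₀ hX1 (by omega)) hx
  have hxK : (X : ℤ) ^ K < |x| := lt_of_le_of_lt (pow_le_pow_right₀ hX1 (by omega)) hx
  have ht := h.not_torus hxE
  refine ⟨h.irreducible, h.involves, h.c_le, h.eqn,
    ⟨fun _ p => h.c_le _ _, fun _ => ?_, fun a ha => ?_, fun i => ?_, ?_⟩, hxK⟩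
  · have h1 : value c x y = 0 := h.mem
    rw [value_eq] at h1
    have h2 : ∀ p : Fin (d + 1) × Fin (d + 1),
        ∏ i, (![(x : ℚ), (y : ℚ)] : Fin 2 → ℚ) i ^ (![(p.1 : ℕ), (p.2 : ℕ)] : Fin 2 → ℕ) i =
        ((∏ i, (![x, y] : Fin 2 → ℤ) i ^ (![(p.1 : ℕ), (p.2 : ℕ)] : Fin 2 → ℕ) i : ℤ) : ℚ) := by
      intro p
      rw [Fin.prod_univ_two, Fin.prod_univ_two]
      simp
    rw [Finset.sum_congr rfl fun p _ => by rw [h2 p]] at h1
    exact_mod_cast h1
  · by_contra hcon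
    push Not at hcon
    apply ht
    refine ⟨a 0, a 1, fun h0 => ha ?_, fun s hs => ?_⟩
    · have h1 := congrArg Prod.fst h0
      have h2 := congrArg Prod.snd h0
      funext i
      fin_cases i
      · exact h1
      · exact h2
    · have h1 := hcon s hs 0
      rw [value_eq]
      refine Eq.trans (Finset.sum_congr rfl fun p _ => ?_) h1
      rw [Fin.prod_univ_two, Fin.prod_univ_two]
      simp
  · refine le_trans ?_ h.bound
    fin_cases i
    · exact_mod_cast le_max_left _ _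
    · exact_mod_cast le_max_right _ _
  · obtain ⟨η, θ, b, e, f, hη, hθ, hb, hx, hy⟩ := h.gen
    refine ⟨![η, θ], b, ![e, f], fun i => ?_, hb, fun i => ?_⟩
    · fin_cases i
      · exact hη
      · exact hθ
    · fin_cases i
      · exact hx
      · exact hy

/-- **Few large integer points with generated coordinates, up to rescaling.** -/
theorem result : ∀ (d N E : ℕ) (ε : ℝ), 0 < ε → ∃ (K : ℕ) (δ : ℝ), 0 < δ ∧ ∀ X : ℕ, 2 ≤ X →
    ∃ S : Finset ((Fin (d + 1) → Fin (d + 1) → ℤ) × ℤ × ℤ), (S.card : ℝ) ≤ (X : ℝ) ^ ε ∧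
      (∀ s ∈ S, Point d N E δ X s.1 s.2.1 s.2.2) ∧
      ∀ c x y, Point d N E δ X c x y → max |x| |y| ≤ (X : ℤ) ^ K ∨
        ∃ s ∈ S, Rescaled ((X : ℤ) ^ K) c s.1 x y s.2.1 s.2.2 := by
  classical
  intro d N E ε hε
  obtain ⟨K, C, δ, hδ, H⟩ := ir_count d N E ε hε
  obtain ⟨K1, hK1⟩ : ∃ K1 : ℕ, K1 = K + E := ⟨_, rfl⟩
  refine ⟨K1 + (d + 1 + (E + K1 * d)) + 2 * C, δ, hδ, fun X hX => ?_⟩
  have hX2 : (2 : ℤ) ≤ (X : ℤ) := by exact_mod_cast hX
  have hX1 : (1 : ℤ) ≤ (X : ℤ) := by linarith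
  obtain ⟨S, hS1, hS2, hS3⟩ := max_sep
    {s : (Fin (d + 1) → Fin (d + 1) → ℤ) × ℤ × ℤ | Point d N E δ X s.1 s.2.1 s.2.2 ∧
      (X : ℤ) ^ K1 < |s.2.1|}
    (fun s t => IrEq ((X + 2) ^ C) s.1 t.1 s.2.1 s.2.2 t.2.1 t.2.2)
    (fun s => IrEq.refl (one_le_pow₀ (by omega)) _ _ _)
    (fun s t h => h.symm) ((X : ℝ) ^ ε)
    (fun T h1 h2 => H X hX T (fun t ht => (h1 t ht).1.irPt (by omega)
      (by rw [← hK1]; exact (h1 t ht).2)) h2)
  refine ⟨S, hS2, fun s hs => (hS1 s hs).1, fun c x y h => ?_⟩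
  rcases le_or_gt |x| ((X : ℤ) ^ K1) with hx | hx
  · left
    refine max_le (hx.trans (pow_le_pow_right₀ hX1 (by omega))) ?_
    have h1 := other_le (H := (X : ℤ) ^ E) h.irreducible h.involves h.c_le h.gen.ne.2
      (one_le_pow₀ hX1) hx h.eqn
    refine h1.trans ?_
    have h2 : ((d : ℤ) + 1) ≤ (X : ℤ) ^ (d + 1) := by
      have h3 : ((d + 1 : ℕ) : ℤ) < (2 : ℤ) ^ (d + 1) := by
        exact_mod_cast (Nat.lt_two_pow_self (n := d + 1))
      push_cast at h3
      exact h3.le.trans (pow_le_pow_left₀ (by norm_num) hX2 _)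
    calc ((d : ℤ) + 1) * ((X : ℤ) ^ E * ((X : ℤ) ^ K1) ^ d) ≤
          (X : ℤ) ^ (d + 1) * ((X : ℤ) ^ E * ((X : ℤ) ^ K1) ^ d) :=
          mul_le_mul_of_nonneg_right h2 (by positivity)
      _ = (X : ℤ) ^ (d + 1 + (E + K1 * d)) := by rw [← pow_mul, ← pow_add, ← pow_add]
      _ ≤ _ := pow_le_pow_right₀ hX1 (by omega)
  · right
    obtain ⟨s, hs, ρ, σ, κ, e1, e2, e3, e4, e5, e6⟩ := hS3 (c, x, y) ⟨h, hx⟩
    have hCK : (((X + 2) ^ C : ℕ) : ℤ) ≤ (X : ℤ) ^ (K1 + (d + 1 + (E + K1 * d)) + 2 * C) := by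
      have h1 : (X : ℤ) + 2 ≤ (X : ℤ) ^ 2 := by nlinarith
      push_cast
      calc ((X : ℤ) + 2) ^ C ≤ ((X : ℤ) ^ 2) ^ C := pow_le_pow_left₀ (by positivity) h1 _
        _ = (X : ℤ) ^ (2 * C) := by rw [← pow_mul]
        _ ≤ _ := pow_le_pow_right₀ hX1 (by omega)
    exact ⟨s, hs, ρ, σ, κ, e1, e2, e3, max_le (e4.1.trans hCK) ((Int.ofNat_le.2 e4.2).trans hCK),
      max_le (e5.1.trans hCK) ((Int.ofNat_le.2 e5.2).trans hCK), e6⟩

end Pool.Agent.Results.MP_2d259b_nt.IrreducibleCurves
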